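import Mathlib

/-!
# MP_e83c66_co: vertex removal and the fixed clique property (disproof)

We exhibit a graph `G` with 9 vertices and a vertex `v` such that the subgraph induced on the
neighbours of `v` (a path with 4 vertices) and the subgraph induced on the complement of `v`
(a graph with 8 vertices) both have the fixed clique property, while `G` does not.
-/

namespace Pool.Agent.Results.MP_e83c66_co.NineVertices

/-- A simplicial endomorphism of `G`: adjacent vertices have equal or adjacent images. -/
def IsSimplicialEndo {V : Type*} (G : SimpleGraph V) (f : V → V) : Prop :=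
  ∀ x y, G.Adj x y → f x = f y ∨ G.Adj (f x) (f y)

/-- The fixed clique property: every simplicial endomorphism `f` fixes some nonempty clique `C`,
that is `f '' C = C`. -/
def FixedCliqueProperty {V : Type*} (G : SimpleGraph V) : Prop :=
  ∀ f : V → V, IsSimplicialEndo G f → ∃ C : Set V, C.Nonempty ∧ G.IsClique C ∧ f '' C = C

/-! ### A verified search -/

/-- adjacency by bit masks -/
def adjB (R : List ℕ) (i j : ℕ) : Bool := Nat.testBit (R.getD i 0) j

def img (l : List ℕ) (i : ℕ) : ℕ := l.getD i 99

def okStep (R : List ℕ) (l : List ℕ) (w : ℕ) : Bool :=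
  (List.range l.length).all
      (fun i => !adjB R i l.length || (img l i == w || adjB R (img l i) w))
  && !(w == l.length)
  && !(img l w == l.length && adjB R w l.length)
  && !(img l (img l w) == l.length && (adjB R w l.length && (adjB R (img l w) w
        && adjB R (img l w) l.length)))

def search (n : ℕ) (R : List ℕ) : ℕ → List ℕ → Bool
  | 0, _ => false
  | m + 1, l => (List.range n).all (fun w => !okStep R l w || search n R m (l ++ [w]))

/-- The graph on `Fin n` given by the masks `R`. -/
def H (n : ℕ) (R : List ℕ) : SimpleGraph (Fin n) :=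
  SimpleGraph.fromRel (fun i j => adjB R i.val j.val = true)

theorem H_adj {n : ℕ} {R : List ℕ}
    (hs : ∀ i < n, ∀ j < n, adjB R i j = adjB R j i) (hi : ∀ i < n, adjB R i i = false)
    (i j : Fin n) : (H n R).Adj i j ↔ adjB R i.val j.val = true := by
  unfold H
  rw [SimpleGraph.fromRel_adj]
  constructor
  · rintro ⟨_, h | h⟩
    · exact h
    · rw [hs i i.2 j j.2]; exact h
  · intro h
    refine ⟨?_, Or.inl h⟩
    rintro rfl
    rw [hi i i.2] at h
    exact absurd h (by decide)

theorem fcp_of_search {n : ℕ} (hn : n ≤ 99) {R : List ℕ}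
    (hs : ∀ i < n, ∀ j < n, adjB R i j = adjB R j i) (hi : ∀ i < n, adjB R i i = false)
    (h : search n R n [] = true) : FixedCliqueProperty (H n R) := by
  intro f hf
  by_contra hno
  set F : ℕ → ℕ := fun i => if h : i < n then (f ⟨i, h⟩).val else 0 with hF
  have hFlt : ∀ i < n, F i < n := by
    intro i hi'
    simp only [hF, hi', dif_pos]
    exact (f ⟨i, hi'⟩).2
  have hFv : ∀ i (hi' : i < n), f ⟨i, hi'⟩ = ⟨F i, hFlt i hi'⟩ := by
    intro i hi'
    apply Fin.ext
    simp only [hF, hi', dif_pos]
  have hadj : ∀ i < n, ∀ j < n, adjB R i j = true → F i = F j ∨ adjB R (F i) (F j) = true := by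
    intro i hi' j hj' hij
    rcases hf ⟨i, hi'⟩ ⟨j, hj'⟩ ((H_adj hs hi _ _).2 hij) with h1 | h1
    · left
      rw [hFv i hi', hFv j hj'] at h1
      exact congrArg Fin.val h1
    · right
      rw [hFv i hi', hFv j hj'] at h1
      exact (H_adj hs hi _ _).1 h1
  -- no short fixed cliques
  have h1 : ∀ i < n, F i ≠ i := by
    intro i hi' he
    apply hno
    refine ⟨{⟨i, hi'⟩}, Set.singleton_nonempty _, SimpleGraph.isClique_singleton _, ?_⟩
    rw [Set.image_singleton, hFv i hi']
    congr 1
    exact Fin.ext he
  have h2 : ∀ i < n, ∀ j < n, F i = j → F j = i → adjB R j i = true → False := by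
    intro i hi' j hj' hij hji ha
    apply hno
    refine ⟨{⟨i, hi'⟩, ⟨j, hj'⟩}, ⟨_, Set.mem_insert _ _⟩, ?_, ?_⟩
    · rw [SimpleGraph.isClique_pair]
      intro _
      exact ((H_adj hs hi _ _).2 ha).symm
    · rw [Set.image_pair, hFv i hi', hFv j hj', Set.pair_comm]
      congr 1
      · exact Fin.ext hji
      · congr 1
        exact Fin.ext hij
  have h3 : ∀ i < n, ∀ j < n, ∀ k < n, F i = j → F j = k → F k = i → adjB R j i = true →
      adjB R k j = true → adjB R k i = true → False := by
    intro i hi' j hj' k hk' hij hjk hki ha hb hc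
    apply hno
    refine ⟨{⟨i, hi'⟩, ⟨j, hj'⟩, ⟨k, hk'⟩}, ⟨_, Set.mem_insert _ _⟩, ?_, ?_⟩
    · have ea := (H_adj hs hi ⟨j, hj'⟩ ⟨i, hi'⟩).2 ha
      have eb := (H_adj hs hi ⟨k, hk'⟩ ⟨j, hj'⟩).2 hb
      have ec := (H_adj hs hi ⟨k, hk'⟩ ⟨i, hi'⟩).2 hc
      intro x hx y hy hxy
      simp only [Set.mem_insert_iff, Set.mem_singleton_iff] at hx hy
      rcases hx with rfl | rfl | rfl <;> rcases hy with rfl | rfl | rfl <;>
        first
          | exact absurd rfl hxy
          | assumption
          | exact ea.symm
          | exact eb.symm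
          | exact ec.symm
    · have e1 : f ⟨i, hi'⟩ = ⟨j, hj'⟩ := by rw [hFv i hi']; exact Fin.ext hij
      have e2 : f ⟨j, hj'⟩ = ⟨k, hk'⟩ := by rw [hFv j hj']; exact Fin.ext hjk
      have e3 : f ⟨k, hk'⟩ = ⟨i, hi'⟩ := by rw [hFv k hk']; exact Fin.ext hki
      rw [Set.image_insert_eq, Set.image_pair, e1, e2, e3]
      ext x
      simp only [Set.mem_insert_iff, Set.mem_singleton_iff]
      tauto
  -- prefixes
  set pref : ℕ → List ℕ := fun k => (List.range k).map F with hpref
  have hlen : ∀ k, (pref k).length = k := by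
    intro k; simp [hpref]
  have himg : ∀ k i, img (pref k) i = if i < k then F i else 99 := by
    intro k i
    unfold img
    rw [List.getD_eq_getElem?_getD]
    by_cases hik : i < k
    · simp [hpref, hik]
    · rw [if_neg hik, List.getElem?_eq_none (by rw [hlen]; omega)]
      rfl
  have hok : ∀ k < n, okStep R (pref k) (F k) = true := by
    intro k hk
    unfold okStep
    rw [hlen]
    simp only [Bool.and_eq_true, Bool.not_eq_true', List.all_eq_true, List.mem_range,
      Bool.or_eq_true, beq_iff_eq, beq_eq_false_iff_ne, Bool.and_eq_false_iff]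
    refine ⟨⟨⟨?_, h1 k hk⟩, ?_⟩, ?_⟩
    · intro i hik
      by_cases ha : adjB R i k = true
      · right
        rw [himg, if_pos hik]
        exact hadj i (by omega) k hk ha
      · left
        simpa using ha
    · rw [himg]
      by_cases hlt : F k < k
      · rw [if_pos hlt]
        by_cases he : F (F k) = k
        · right
          by_contra hc
          exact h2 k hk (F k) (by omega) rfl he (by simpa using hc)
        · left; exact he
      · rw [if_neg hlt]
        left; omega
    · by_cases hlt : F k < k
      · rw [himg k (F k), if_pos hlt, himg]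
        by_cases hlt2 : F (F k) < k
        · rw [if_pos hlt2]
          by_cases he : F (F (F k)) = k
          · right
            by_contra hc
            simp only [not_or, Bool.not_eq_false] at hc
            exact h3 k hk (F k) (by omega) (F (F k)) (by omega) rfl rfl he hc.1 hc.2.1 hc.2.2
          · left; exact he
        · rw [if_neg hlt2]
          left; omega
      · rw [himg k (F k), if_neg hlt, himg, if_neg (by omega)]
        left; omega
  have key : ∀ m ≤ n, search n R m (pref (n - m)) = false := by
    intro m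
    induction m with
    | zero => intro _; rfl
    | succ m ih =>
      intro hm
      have hk : n - (m + 1) < n := by omega
      have hstep : pref (n - (m + 1)) ++ [F (n - (m + 1))] = pref (n - m) := by
        have : n - m = n - (m + 1) + 1 := by omega
        rw [this]
        simp only [hpref, List.range_succ, List.map_append, List.map_cons, List.map_nil]
      rw [search]
      rw [List.all_eq_false]
      refine ⟨F (n - (m + 1)), List.mem_range.2 (hFlt _ hk), ?_⟩
      rw [hstep, hok _ hk, ih (by omega)]
      decide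
  have := key n le_rfl
  rw [Nat.sub_self] at this
  have hp0 : pref 0 = [] := by simp [hpref]
  rw [hp0, h] at this
  exact absurd this (by decide)

/-- The fixed clique property is invariant under isomorphism. -/
theorem fcp_iso {V W : Type*} {G : SimpleGraph V} {K : SimpleGraph W} (e : G ≃g K)
    (h : FixedCliqueProperty K) : FixedCliqueProperty G := by
  intro f hf
  have hg : IsSimplicialEndo K (fun w => e (f (e.symm w))) := by
    intro x y hxy
    have h1 : G.Adj (e.symm x) (e.symm y) := e.symm.map_adj_iff.2 hxy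
    rcases hf _ _ h1 with h2 | h2
    · left; exact congrArg e h2
    · right; exact e.map_adj_iff.2 h2
  obtain ⟨C, hC, hcl, hfix⟩ := h _ hg
  refine ⟨e.symm '' C, hC.image _, ?_, ?_⟩
  · rintro _ ⟨x, hx, rfl⟩ _ ⟨y, hy, rfl⟩ hxy
    exact e.symm.map_adj_iff.2 (hcl hx hy (fun he => hxy (by rw [he])))
  · rw [← Set.image_comp]
    have : f '' (e.symm '' C) = e.symm '' ((fun w => e (f (e.symm w))) '' C) := by
      rw [← Set.image_comp, ← Set.image_comp]
      apply Set.image_congr
      intro a _
      simp
    rw [Set.image_comp, this, hfix]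

/-! ### The example -/

def R9 : List ℕ := [302, 469, 27, 437, 78, 201, 434, 106, 75]
def R8 : List ℕ := [46, 213, 27, 181, 78, 201, 178, 106]
/-- the path `3 - 0 - 1 - 6` (labels `0,1,2,3` stand for `0,1,3,6`) -/
def R4 : List ℕ := [6, 9, 1, 2]

def G9 : SimpleGraph (Fin 9) := H 9 R9

theorem G9_adj (i j : Fin 9) : G9.Adj i j ↔ adjB R9 i.val j.val = true :=
  H_adj (by decide) (by decide) i j

theorem fcp8 : FixedCliqueProperty (H 8 R8) :=
  fcp_of_search (by norm_num) (by decide) (by decide) (by decide +kernel)

theorem fcp4 : FixedCliqueProperty (H 4 R4) :=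
  fcp_of_search (by norm_num) (by decide) (by decide) (by decide +kernel)

/-- transfer along an injection whose range is `S` -/
theorem fcp_induce {V : Type*} {G : SimpleGraph V} {m : ℕ} {K : SimpleGraph (Fin m)}
    (ι : Fin m → V) (hι : Function.Injective ι) (hadj : ∀ a b, G.Adj (ι a) (ι b) ↔ K.Adj a b)
    (S : Set V) (hS : ∀ w, w ∈ S ↔ ∃ a, ι a = w) (h : FixedCliqueProperty K) :
    FixedCliqueProperty (G.induce S) := by
  have hmem : ∀ a, ι a ∈ S := fun a => (hS _).2 ⟨a, rfl⟩
  have hbij : Function.Bijective (fun a : Fin m => (⟨ι a, hmem a⟩ : S)) := by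
    constructor
    · intro a b hab
      exact hι (congrArg Subtype.val hab)
    · rintro ⟨w, hw⟩
      obtain ⟨a, ha⟩ := (hS w).1 hw
      exact ⟨a, Subtype.ext ha⟩
  let e : K ≃g G.induce S :=
    { toEquiv := Equiv.ofBijective _ hbij
      map_rel_iff' := by
        intro a b
        exact hadj a b }
  exact fcp_iso e.symm h

def ι8 : Fin 8 → Fin 9 := ![0, 1, 2, 3, 4, 5, 6, 7]
def ι4 : Fin 4 → Fin 9 := ![0, 1, 3, 6]
def f9 : Fin 9 → Fin 9 := ![3, 8, 0, 5, 0, 7, 1, 6, 0]

theorem H8_adj (i j : Fin 8) : (H 8 R8).Adj i j ↔ adjB R8 i.val j.val = true :=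
  H_adj (by decide) (by decide) i j

theorem H4_adj (i j : Fin 4) : (H 4 R4).Adj i j ↔ adjB R4 i.val j.val = true :=
  H_adj (by decide) (by decide) i j

theorem ι8_inj : Function.Injective ι8 := by decide
theorem ι4_inj : Function.Injective ι4 := by decide

theorem adj8 : ∀ a b : Fin 8, adjB R9 (ι8 a).val (ι8 b).val = adjB R8 a.val b.val := by decide
theorem adj4 : ∀ a b : Fin 4, adjB R9 (ι4 a).val (ι4 b).val = adjB R4 a.val b.val := by decide

theorem mem8 : ∀ w : Fin 9, w ≠ 8 ↔ ∃ a, ι8 a = w := by decide
theorem mem4 : ∀ w : Fin 9, adjB R9 8 w.val = true ↔ ∃ a, ι4 a = w := by decide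

theorem endo9 : ∀ x y : Fin 9, adjB R9 x.val y.val = true →
    f9 x = f9 y ∨ adjB R9 (f9 x).val (f9 y).val = true := by decide

theorem reach9 : ∀ x : Fin 9, ∃ i : Fin 9, f9^[i.val] x = 0 := by decide

theorem not_fcp9 : ¬ FixedCliqueProperty G9 := by
  intro h
  obtain ⟨C, ⟨x, hx⟩, hcl, hfix⟩ := h f9 (by
    intro x y hxy
    rw [G9_adj] at hxy ⊢
    exact endo9 x y hxy)
  have hstep : ∀ y ∈ C, f9 y ∈ C := by
    intro y hy
    rw [← hfix]
    exact Set.mem_image_of_mem _ hy
  have hiter : ∀ k : ℕ, ∀ y ∈ C, f9^[k] y ∈ C := by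
    intro k
    induction k with
    | zero => intro y hy; exact hy
    | succ k ih =>
      intro y hy
      rw [Function.iterate_succ_apply]
      exact ih _ (hstep y hy)
  obtain ⟨i, hi⟩ := reach9 x
  have h0 : (0 : Fin 9) ∈ C := by
    rw [← hi]
    exact hiter _ x hx
  have h7 : (7 : Fin 9) ∈ C := hiter 3 0 h0
  have := hcl h0 h7 (by decide)
  rw [G9_adj] at this
  exact absurd this (by decide)

/-- **Disproof.** There is a graph `G` with 9 vertices and a vertex `v` such that the subgraph
induced on the neighbours of `v` (that is `G[N(v) \ {v}]`) and the subgraph induced on the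
vertices other than `v` both have the fixed clique property, while `G` does not. -/
theorem result : ∃ (G : SimpleGraph (Fin 9)) (v : Fin 9),
    FixedCliqueProperty (G.induce {w | G.Adj v w}) ∧
    FixedCliqueProperty (G.induce {w | w ≠ v}) ∧
    ¬ FixedCliqueProperty G := by
  refine ⟨G9, 8, ?_, ?_, not_fcp9⟩
  · refine fcp_induce ι4 ι4_inj ?_ _ ?_ fcp4
    · intro a b
      rw [G9_adj, H4_adj, adj4]
    · intro w
      rw [Set.mem_setOf_eq, G9_adj]
      exact mem4 w
  · refine fcp_induce ι8 ι8_inj ?_ _ ?_ fcp8
    · intro a b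
      rw [G9_adj, H8_adj, adj8]
    · intro w
      exact mem8 w

end Pool.Agent.Results.MP_e83c66_co.NineVertices
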